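import Pool.Agent.R995.NC8

set_option autoImplicit false

/-! # Reversible three-state number-conserving cellular automata with von Neumann neighbourhood

In every dimension `n ≥ 1` such an automaton is the identity or one of the `2n` unit shifts. -/

open Pool.Agent.R995.NC in
theorem Pool.Agent.Results.MP_944d6d_mp.TrivialAllDim.result :
    ∀ n : ℕ, 1 ≤ n → ∀ f : (vN n → Fin 3) → Fin 3,
      (PeriodSumPreserved (glob f) ∨ FiniteSumPreserved (glob f)) →
      Function.Bijective (glob f) →
      ∃ u ∈ vN n, ∀ (x : (Fin n → ℤ) → Fin 3) (v : Fin n → ℤ), glob f x v = x (v + u) := by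
  intro n _ f h hb
  rcases h with h | h
  · exact main_finite f (finite_of_period f h) hb.1
  · exact main_finite f h hb.1
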